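import Pool.Agent.D0H11.GO.Stm

/-! Project GO (helper11), module EQ (helper81, second seat): fast-slow averaging by shifts. -/

set_option autoImplicit false

namespace Pool.Agent.D0H81.GO

open MeasureTheory Set Filter

/-- the fractional part of `x / e` -/
noncomputable def p (e : ℕ) (x : ℝ) : ℝ := Int.fract (x / e)

/-- the indicator of `e ∣ ⌊x⌋ + 1` -/
noncomputable def g (e : ℕ) (x : ℝ) : ℝ := 1 / e - p e (x + 1) + p e x

theorem p_nonneg (e : ℕ) (x : ℝ) : 0 ≤ p e x := Int.fract_nonneg _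

theorem p_le (e : ℕ) (x : ℝ) : |p e x| ≤ 1 := by
  rw [abs_of_nonneg (p_nonneg e x)]
  exact (Int.fract_lt_one _).le

theorem p_meas (e : ℕ) : Measurable (p e) := measurable_fract.comp (measurable_id.div_const _)

theorem g_meas (e : ℕ) : Measurable (g e) :=
  (measurable_const.sub ((p_meas e).comp (measurable_id.add_const 1))).add (p_meas e)

theorem g_eq (e : ℕ) (he : 1 ≤ e) (x : ℝ) : g e x = if (e : ℤ) ∣ ⌊x⌋ + 1 then 1 else 0 := by
  have he0 : (0 : ℝ) < e := by exact_mod_cast he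
  have h1 : g e x = ((⌊(x + 1) / e⌋ - ⌊x / e⌋ : ℤ) : ℝ) := by
    unfold g p Int.fract
    push_cast
    ring
  have hx1 : (⌊x⌋ : ℝ) ≤ x := Int.floor_le x
  have hx2 : x < ⌊x⌋ + 1 := Int.lt_floor_add_one x
  rw [h1]
  set n : ℤ := ⌊x⌋ with hn
  set q : ℤ := (n + 1) / e with hq
  set r : ℤ := (n + 1) % e with hr
  have hqr : (e : ℤ) * q + r = n + 1 := Int.mul_ediv_add_emod _ _
  have hr0 : 0 ≤ r := Int.emod_nonneg _ (by exact_mod_cast (by omega : e ≠ 0))
  have hr1 : r < e := Int.emod_lt_of_pos _ (by exact_mod_cast he)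
  have hqr' : (e : ℝ) * q + r = n + 1 := by exact_mod_cast hqr
  have hr1' : (r : ℝ) + 1 ≤ e := by exact_mod_cast hr1
  have hr0' : (0 : ℝ) ≤ r := by exact_mod_cast hr0
  by_cases h : (e : ℤ) ∣ n + 1
  · rw [if_pos h]
    have hr2 : r = 0 := Int.emod_eq_zero_of_dvd h
    have hr3 : (r : ℝ) = 0 := by exact_mod_cast hr2
    have he1 : (1 : ℝ) ≤ e := by exact_mod_cast he
    have a1 : ⌊(x + 1) / e⌋ = q := by
      rw [Int.floor_eq_iff, le_div_iff₀ he0, div_lt_iff₀ he0]
      constructor <;> nlinarith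
    have a2 : ⌊x / e⌋ = q - 1 := by
      rw [Int.floor_eq_iff, le_div_iff₀ he0, div_lt_iff₀ he0]
      push_cast
      constructor <;> nlinarith
    rw [a1, a2]
    push_cast
    ring
  · rw [if_neg h]
    have hr2 : 1 ≤ r := by
      rcases Int.lt_or_eq_of_le hr0 with h2 | h2
      · omega
      · exact absurd (Int.dvd_of_emod_eq_zero h2.symm) h
    have hr3 : (1 : ℝ) ≤ r := by exact_mod_cast hr2
    have a1 : ⌊(x + 1) / e⌋ = q := by
      rw [Int.floor_eq_iff, le_div_iff₀ he0, div_lt_iff₀ he0]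
      constructor <;> nlinarith
    have a2 : ⌊x / e⌋ = q := by
      rw [Int.floor_eq_iff, le_div_iff₀ he0, div_lt_iff₀ he0]
      constructor <;> nlinarith
    rw [a1, a2]
    simp

theorem g_nonneg (e : ℕ) (he : 1 ≤ e) (x : ℝ) : 0 ≤ g e x := by
  rw [g_eq e he]; split_ifs <;> norm_num

theorem g_le (e : ℕ) (he : 1 ≤ e) (x : ℝ) : |g e x| ≤ 1 := by
  rw [g_eq e he]; split_ifs <;> norm_num

theorem ii {f : ℝ → ℝ} (hf : Measurable f) (C : ℝ) (hb : ∀ x, |f x| ≤ C) (a b : ℝ) :
    IntervalIntegrable f volume a b := by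
  rw [intervalIntegrable_iff]
  refine Measure.integrableOn_of_bounded (M := C) ?_ hf.aestronglyMeasurable
    (Filter.Eventually.of_forall hb)
  rw [uIoc, Real.volume_Ioc]
  exact ENNReal.ofReal_ne_top

theorem abs_sub_le_abs_add_abs' (x y : ℝ) : |x - y| ≤ |x| + |y| := by
  rw [sub_eq_add_neg]
  exact (abs_add_le x (-y)).trans (by rw [abs_neg])

theorem shift {f : ℝ → ℝ} (hf : Measurable f) (h0 : ∀ x, |f x| ≤ 1) (s t τ : ℝ) :
    |(∫ x in s..t, f (x + τ)) - ∫ x in s..t, f x| ≤ 2 * |τ| := by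
  rw [intervalIntegral.integral_comp_add_right,
    intervalIntegral.integral_interval_sub_interval_comm (ii hf 1 h0 _ _) (ii hf 1 h0 _ _)
      (ii hf 1 h0 _ _)]
  have h1 : |∫ x in (s + τ)..s, f x| ≤ 1 * |s - (s + τ)| := by
    rw [← Real.norm_eq_abs (∫ x in (s + τ)..s, f x)]
    exact intervalIntegral.norm_integral_le_of_norm_le_const fun x _ => h0 x
  have h2 : |∫ x in (t + τ)..t, f x| ≤ 1 * |t - (t + τ)| := by
    rw [← Real.norm_eq_abs (∫ x in (t + τ)..t, f x)]
    exact intervalIntegral.norm_integral_le_of_norm_le_const fun x _ => h0 x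
  have e1 : s - (s + τ) = -τ := by ring
  have e2 : t - (t + τ) = -τ := by ring
  rw [e1, abs_neg, one_mul] at h1
  rw [e2, abs_neg, one_mul] at h2
  refine (abs_sub_le_abs_add_abs' _ _).trans ?_
  linarith

theorem per {f : ℝ → ℝ} {T : ℝ} (hT : 0 < T) (hf : Function.Periodic f T) (a : ℝ) :
    ∫ θ in (0 : ℝ)..1, f (a + T * θ) = ∫ θ in (0 : ℝ)..1, f (T * θ) := by
  have h1 := intervalIntegral.integral_comp_add_mul (a := 0) (b := 1) f hT.ne' a
  have h2 := intervalIntegral.integral_comp_add_mul (a := 0) (b := 1) f hT.ne' 0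
  simp only [zero_add] at h2
  rw [h1, h2]
  congr 1
  have h3 := hf.intervalIntegral_add_eq a 0
  simpa using h3

theorem p_per {e : ℕ} (he : 1 ≤ e) {T : ℝ} (n : ℕ) (hn : T = e * n) : Function.Periodic (p e) T := by
  intro x
  have he0 : (e : ℝ) ≠ 0 := by
    have : 0 < e := he
    exact_mod_cast this.ne'
  unfold p
  have : (x + T) / e = x / e + (n : ℤ) := by
    rw [hn]; field_simp; push_cast; ring
  rw [this, Int.fract_add_intCast]

/-- Fubini for bounded measurable functions -/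
theorem swap {f : ℝ → ℝ → ℝ} (hf : Measurable (Function.uncurry f)) (hb : ∀ x y, |f x y| ≤ 1)
    {a b c d : ℝ} (hab : a ≤ b) (hcd : c ≤ d) :
    ∫ x in a..b, ∫ y in c..d, f x y = ∫ y in c..d, ∫ x in a..b, f x y := by
  simp only [intervalIntegral.integral_of_le hab, intervalIntegral.integral_of_le hcd]
  refine integral_integral_swap ?_
  exact Integrable.of_bound hf.aestronglyMeasurable 1 (Filter.Eventually.of_forall fun z => hb _ _)

theorem inner_ii {f : ℝ → ℝ → ℝ} (hf : Measurable (Function.uncurry f)) (hb : ∀ x y, |f x y| ≤ 1)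
    {a b c d : ℝ} (hab : a ≤ b) (hcd : c ≤ d) :
    IntervalIntegrable (fun x => ∫ y in c..d, f x y) volume a b := by
  simp only [intervalIntegral.integral_of_le hcd]
  rw [intervalIntegrable_iff_integrableOn_Ioc_of_le hab]
  have h : Integrable (Function.uncurry f)
      ((volume.restrict (Ioc a b)).prod (volume.restrict (Ioc c d))) :=
    Integrable.of_bound hf.aestronglyMeasurable 1 (Filter.Eventually.of_forall fun z => hb _ _)
  exact h.integral_prod_left

/-- the slow average -/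
theorem slow {e : ℕ} (he : 1 ≤ e) (y B s t : ℝ) (hB : B ≠ 0) :
    |(∫ α in s..t, g e (y + α * B)) - (t - s) / e| ≤ 2 / |B| := by
  have m1 : Measurable fun α : ℝ => p e (y + α * B) :=
    (p_meas e).comp ((measurable_id.mul_const B).const_add y)
  have h1 := shift m1 (fun x => p_le e _) s t (1 / B)
  have h2 : ∀ α : ℝ, y + (α + 1 / B) * B = y + α * B + 1 := by
    intro α; field_simp; ring
  simp only [h2] at h1
  have h3 : ∫ α in s..t, g e (y + α * B) = (t - s) / e -
      ((∫ α in s..t, p e (y + α * B + 1)) - ∫ α in s..t, p e (y + α * B)) := by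
    have m2 : Measurable fun α : ℝ => p e (y + α * B + 1) :=
      (p_meas e).comp (((measurable_id.mul_const B).const_add y).add_const 1)
    have i1 := ii m1 1 (fun x => p_le e _) s t
    have i2 := ii m2 1 (fun x => p_le e _) s t
    unfold g
    rw [intervalIntegral.integral_add ((intervalIntegrable_const).sub i2) i1,
      intervalIntegral.integral_sub intervalIntegrable_const i2, intervalIntegral.integral_const,
      smul_eq_mul]
    ring
  rw [h3, abs_sub_comm]
  have h4 : (t - s) / (e : ℝ) - ((t - s) / e -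
      ((∫ α in s..t, p e (y + α * B + 1)) - ∫ α in s..t, p e (y + α * B))) =
      (∫ α in s..t, p e (y + α * B + 1)) - ∫ α in s..t, p e (y + α * B) := by ring
  rw [h4]
  refine h1.trans (le_of_eq ?_)
  rw [abs_div, abs_one]
  ring

/-- the integral of the fractional part over whole periods does not depend on the start -/
theorem fast {e : ℕ} (he : 1 ≤ e) {T : ℝ} (hT : 0 < T) (n : ℕ) (hn : T = e * n) (a b : ℝ) :
    ∫ θ in (0 : ℝ)..1, p e (a + T * θ) = ∫ θ in (0 : ℝ)..1, p e (b + T * θ) := by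
  rw [per hT (p_per he n hn) a, per hT (p_per he n hn) b]

theorem ip (e : ℕ) (a T : ℝ) : IntervalIntegrable (fun θ => p e (a + T * θ)) volume 0 1 :=
  ii ((p_meas e).comp ((measurable_id.const_mul T).const_add a)) 1 (fun x => p_le e _) 0 1

theorem fast_g {e : ℕ} (he : 1 ≤ e) {T : ℝ} (hT : 0 < T) (n : ℕ) (hn : T = e * n) :
    ∫ θ in (0 : ℝ)..1, g e (T * θ) = 1 / e := by
  have h1 : ∀ θ : ℝ, g e (T * θ) = 1 / e - p e (1 + T * θ) + p e (0 + T * θ) := by
    intro θ; unfold g; rw [zero_add, add_comm 1]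
  simp only [h1]
  rw [intervalIntegral.integral_add ((intervalIntegrable_const).sub (ip e 1 T)) (ip e 0 T),
    intervalIntegral.integral_sub intervalIntegrable_const (ip e 1 T), fast he hT n hn 1 0]
  simp

/-- monotonicity: the change of `⌊x / e⌋` -/
theorem floor_pert {e : ℕ} (he : 1 ≤ e) (x δ η : ℝ) (h : |δ| ≤ η) :
    |(δ / e - p e (x + δ) + p e x)| ≤ 2 * η / e - p e (x + η) + p e (x - η) := by
  have he0 : (0 : ℝ) < e := by exact_mod_cast he
  have key : ∀ u v : ℝ, (v - u) / e - p e v + p e u = ((⌊v / e⌋ - ⌊u / e⌋ : ℤ) : ℝ) := by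
    intro u v
    unfold p Int.fract
    push_cast
    ring
  have h1 := key x (x + δ)
  have h2 := key (x - η) (x + η)
  have e1 : x + δ - x = δ := by ring
  have e2 : x + η - (x - η) = 2 * η := by ring
  rw [e1] at h1
  rw [e2] at h2
  rw [h1, h2]
  obtain ⟨h3, h4⟩ := abs_le.mp h
  have a1 : ⌊(x - η) / e⌋ ≤ ⌊(x + δ) / e⌋ := Int.floor_le_floor (by gcongr; linarith)
  have a2 : ⌊(x + δ) / e⌋ ≤ ⌊(x + η) / e⌋ := Int.floor_le_floor (by gcongr)
  have a3 : ⌊(x - η) / e⌋ ≤ ⌊x / e⌋ := Int.floor_le_floor (by gcongr; linarith [abs_nonneg δ])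
  have a4 : ⌊x / e⌋ ≤ ⌊(x + η) / e⌋ := Int.floor_le_floor (by gcongr; linarith [abs_nonneg δ])
  rw [← Int.cast_abs, Int.cast_le, abs_le]
  constructor <;> omega

/-- the perturbation of the second frequency -/
theorem pert {e : ℕ} (he : 1 ≤ e) {T : ℝ} (hT : 0 < T) (n : ℕ) (hn : T = e * n) (y η : ℝ)
    (w : ℝ → ℝ) (hw : Measurable w) (hw1 : ∀ x, |w x| ≤ 1) :
    |(∫ θ in (0 : ℝ)..1, w θ * g e (y + T * θ + η * θ)) -
      ∫ θ in (0 : ℝ)..1, w θ * g e (y + T * θ)| ≤ 4 * |η| / e := by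
  have he0 : (0 : ℝ) < e := by exact_mod_cast he
  have m0 : Measurable fun θ : ℝ => y + T * θ := (measurable_id.const_mul T).const_add y
  have m1 : Measurable fun θ : ℝ => w θ * g e (y + T * θ + η * θ) :=
    hw.mul ((g_meas e).comp (m0.add (measurable_id.const_mul η)))
  have m2 : Measurable fun θ : ℝ => w θ * g e (y + T * θ) := hw.mul ((g_meas e).comp m0)
  have b1 : ∀ θ : ℝ, |w θ * g e (y + T * θ + η * θ)| ≤ 1 := fun θ => by
    rw [abs_mul]; exact mul_le_one₀ (hw1 θ) (abs_nonneg _) (g_le e he _)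
  have b2 : ∀ θ : ℝ, |w θ * g e (y + T * θ)| ≤ 1 := fun θ => by
    rw [abs_mul]; exact mul_le_one₀ (hw1 θ) (abs_nonneg _) (g_le e he _)
  rw [← intervalIntegral.integral_sub (ii m1 1 b1 _ _) (ii m2 1 b2 _ _), ← Real.norm_eq_abs]
  set G : ℝ → ℝ := fun θ => (2 * |η| / e - p e (y + 1 + |η| + T * θ) + p e (y + 1 - |η| + T * θ)) +
    (2 * |η| / e - p e (y + |η| + T * θ) + p e (y - |η| + T * θ)) with hG
  have iG1 : IntervalIntegrable (fun θ : ℝ => 2 * |η| / e - p e (y + 1 + |η| + T * θ) +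
      p e (y + 1 - |η| + T * θ)) volume 0 1 :=
    ((intervalIntegrable_const).sub (ip e _ T)).add (ip e _ T)
  have iG2 : IntervalIntegrable (fun θ : ℝ => 2 * |η| / e - p e (y + |η| + T * θ) +
      p e (y - |η| + T * θ)) volume 0 1 :=
    ((intervalIntegrable_const).sub (ip e _ T)).add (ip e _ T)
  have hGi : IntervalIntegrable G volume 0 1 := iG1.add iG2
  have hGv : ∫ θ in (0 : ℝ)..1, G θ = 4 * |η| / e := by
    rw [hG, intervalIntegral.integral_add iG1 iG2,
      intervalIntegral.integral_add ((intervalIntegrable_const).sub (ip e _ T)) (ip e _ T),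
      intervalIntegral.integral_add ((intervalIntegrable_const).sub (ip e _ T)) (ip e _ T),
      intervalIntegral.integral_sub intervalIntegrable_const (ip e _ T),
      intervalIntegral.integral_sub intervalIntegrable_const (ip e _ T),
      fast he hT n hn (y + 1 + |η|) 0, fast he hT n hn (y + 1 - |η|) 0,
      fast he hT n hn (y + |η|) 0, fast he hT n hn (y - |η|) 0]
    simp
    ring
  rw [← hGv]
  refine intervalIntegral.norm_integral_le_of_norm_le zero_le_one ?_ hGi
  refine Filter.Eventually.of_forall fun θ hθ => ?_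
  have hδ : |η * θ| ≤ |η| := by
    rw [abs_mul, abs_of_pos hθ.1]
    exact mul_le_of_le_one_right (abs_nonneg _) hθ.2
  have h1 := floor_pert he (y + T * θ + 1) (η * θ) |η| hδ
  have h2 := floor_pert he (y + T * θ) (η * θ) |η| hδ
  have h3 : w θ * g e (y + T * θ + η * θ) - w θ * g e (y + T * θ) =
      w θ * ((η * θ / e - p e (y + T * θ + 1 + η * θ) + p e (y + T * θ + 1)) -
        (η * θ / e - p e (y + T * θ + η * θ) + p e (y + T * θ))) := by
    unfold g
    have : y + T * θ + η * θ + 1 = y + T * θ + 1 + η * θ := by ring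
    rw [this]
    ring
  rw [Real.norm_eq_abs, h3, abs_mul]
  refine (mul_le_of_le_one_left (abs_nonneg _) (hw1 θ)).trans ?_
  refine (abs_sub_le_abs_add_abs' _ _).trans ?_
  refine (add_le_add h1 h2).trans (le_of_eq ?_)
  rw [hG]
  have e1 : y + T * θ + 1 + |η| = y + 1 + |η| + T * θ := by ring
  have e2 : y + T * θ + 1 - |η| = y + 1 - |η| + T * θ := by ring
  have e3 : y + T * θ + |η| = y + |η| + T * θ := by ring
  have e4 : y + T * θ - |η| = y - |η| + T * θ := by ring
  rw [e1, e2, e3, e4]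

theorem g_per {e : ℕ} (he : 1 ≤ e) {T : ℝ} (n : ℕ) (hn : T = e * n) :
    Function.Periodic (g e) T := by
  intro x
  have h := p_per he n hn
  unfold g
  have e1 : x + T + 1 = x + 1 + T := by ring
  rw [e1, h (x + 1), h x]

theorem core (A B s t : ℝ) (k e e' : ℕ) (hA : 0 < A) (hB : B ≠ 0) (hst : s ≤ t) (he : 1 ≤ e)
    (he' : 1 ≤ e') :
    |(∫ α in s..t, g e (α * A) * g e' (α * (2 ^ k * A + B))) - (t - s) / ((e : ℝ) * e')| ≤
      2 * (((e : ℝ) * e') / A) + 4 * |((e : ℝ) * e') * B / A| / e' * (t - s) + 2 / |B| := by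
  have he1 : (1 : ℝ) ≤ e := by exact_mod_cast he
  have he1' : (1 : ℝ) ≤ e' := by exact_mod_cast he'
  set Q : ℝ := (e : ℝ) * e' with hQ
  have hQ0 : 0 < Q := by positivity
  set D : ℝ := 2 ^ k * A + B with hD
  set c : ℝ := 2 ^ k * Q with hc
  have hc0 : 0 < c := by positivity
  have hcn : c = e' * ((2 ^ k * e : ℕ) : ℝ) := by rw [hc, hQ]; push_cast; ring
  set η : ℝ := Q * B / A with hη
  set F : ℝ → ℝ := fun α => g e (α * A) * g e' (α * D) with hF
  have mF : Measurable F := ((g_meas e).comp (measurable_id.mul_const A)).mul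
    ((g_meas e').comp (measurable_id.mul_const D))
  have bF : ∀ x, |F x| ≤ 1 := fun x => by
    rw [hF, abs_mul]; exact mul_le_one₀ (g_le e he _) (abs_nonneg _) (g_le e' he' _)
  set I : ℝ := ∫ α in s..t, F α with hI
  -- the shifts
  have mS : Measurable (Function.uncurry fun (θ α : ℝ) => F (α + θ * (Q / A))) :=
    mF.comp (measurable_snd.add (measurable_fst.mul_const _))
  have mS' : Measurable (Function.uncurry fun (α θ : ℝ) => F (α + θ * (Q / A))) :=
    mF.comp (measurable_fst.add (measurable_snd.mul_const _))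
  have h1 : |(∫ θ in (0 : ℝ)..1, ∫ α in s..t, F (α + θ * (Q / A))) - I| ≤ 2 * (Q / A) := by
    have e1 : (∫ θ in (0 : ℝ)..1, ∫ α in s..t, F (α + θ * (Q / A))) - I =
        ∫ θ in (0 : ℝ)..1, ((∫ α in s..t, F (α + θ * (Q / A))) - I) := by
      rw [intervalIntegral.integral_sub
        (inner_ii mS (fun x y => bF _) zero_le_one hst) intervalIntegrable_const]
      simp
    rw [e1, ← Real.norm_eq_abs]
    have h := intervalIntegral.norm_integral_le_of_norm_le_const (a := 0) (b := 1)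
      (C := 2 * (Q / A)) (f := fun θ => (∫ α in s..t, F (α + θ * (Q / A))) - I) ?_
    · simpa using h
    · intro θ hθ
      rw [uIoc_of_le zero_le_one] at hθ
      rw [Real.norm_eq_abs]
      refine (shift mF bF s t (θ * (Q / A))).trans ?_
      rw [abs_of_nonneg (mul_nonneg hθ.1.le (by positivity))]
      have : θ * (Q / A) ≤ 1 * (Q / A) := mul_le_mul_of_nonneg_right hθ.2 (by positivity)
      linarith
  rw [swap mS (fun x y => bF _) zero_le_one hst] at h1
  -- the perturbation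
  have mP : Measurable (Function.uncurry fun (α θ : ℝ) =>
      g e (Q * θ) * g e' (2 ^ k * (Q * θ) + α * B)) :=
    ((g_meas e).comp (measurable_snd.const_mul Q)).mul
      ((g_meas e').comp (((measurable_snd.const_mul Q).const_mul _).add
        (measurable_fst.mul_const B)))
  have bP : ∀ α θ : ℝ, |g e (Q * θ) * g e' (2 ^ k * (Q * θ) + α * B)| ≤ 1 := fun α θ => by
    rw [abs_mul]; exact mul_le_one₀ (g_le e he _) (abs_nonneg _) (g_le e' he' _)
  have h2 : ∀ α : ℝ, |(∫ θ in (0 : ℝ)..1, F (α + θ * (Q / A))) -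
      ∫ θ in (0 : ℝ)..1, g e (Q * θ) * g e' (2 ^ k * (Q * θ) + α * B)| ≤ 4 * |η| / e' := by
    intro α
    have e1 : ∀ θ : ℝ, F (α + θ * (Q / A)) =
        g e (α * A + Q * θ) * g e' (α * D + c * θ + η * θ) := by
      intro θ
      rw [hF]
      have a1 : (α + θ * (Q / A)) * A = α * A + Q * θ := by field_simp
      have a2 : (α + θ * (Q / A)) * D = α * D + c * θ + η * θ := by
        rw [hD, hc, hη]; field_simp; ring
      simp only [a1, a2]
    have e2 : ∫ θ in (0 : ℝ)..1, g e (α * A + Q * θ) * g e' (α * D + c * θ) =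
        ∫ θ in (0 : ℝ)..1, g e (Q * θ) * g e' (2 ^ k * (Q * θ) + α * B) := by
      have hper : Function.Periodic (fun L : ℝ => g e L * g e' (2 ^ k * L + α * B)) Q := by
        intro L
        have b1 := g_per he e' hQ L
        have b2 := g_per he' (2 ^ k * e) hcn (2 ^ k * L + α * B)
        have b3 : 2 ^ k * (L + Q) + α * B = 2 ^ k * L + α * B + c := by rw [hc]; ring
        change g e (L + Q) * g e' (2 ^ k * (L + Q) + α * B) = g e L * g e' (2 ^ k * L + α * B)
        rw [b1, b3, b2]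
      have h := per hQ0 hper (α * A)
      rw [← h]
      refine intervalIntegral.integral_congr fun θ _ => ?_
      have b4 : 2 ^ k * (α * A + Q * θ) + α * B = α * D + c * θ := by rw [hD, hc]; ring
      simp only [b4]
    simp only [e1]
    rw [← e2]
    exact pert he' hc0 _ hcn (α * D) η (fun θ => g e (α * A + Q * θ))
      ((g_meas e).comp ((measurable_id.const_mul Q).const_add _)) (fun x => g_le e he _)
  have h3 : |(∫ α in s..t, ∫ θ in (0 : ℝ)..1, F (α + θ * (Q / A))) -
      ∫ α in s..t, ∫ θ in (0 : ℝ)..1, g e (Q * θ) * g e' (2 ^ k * (Q * θ) + α * B)| ≤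
      4 * |η| / e' * (t - s) := by
    rw [← intervalIntegral.integral_sub (inner_ii mS' (fun x y => bF _) hst zero_le_one)
      (inner_ii mP bP hst zero_le_one), ← Real.norm_eq_abs]
    have h := intervalIntegral.norm_integral_le_of_norm_le_const (a := s) (b := t)
      (C := 4 * |η| / e') (f := fun α => (∫ θ in (0 : ℝ)..1, F (α + θ * (Q / A))) -
        ∫ θ in (0 : ℝ)..1, g e (Q * θ) * g e' (2 ^ k * (Q * θ) + α * B)) fun α _ => by
          rw [Real.norm_eq_abs]; exact h2 α
    rwa [abs_of_nonneg (sub_nonneg.mpr hst)] at h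
  rw [swap mP bP hst zero_le_one] at h3
  -- the slow average
  have mP' : Measurable (Function.uncurry fun (θ α : ℝ) =>
      g e (Q * θ) * g e' (2 ^ k * (Q * θ) + α * B)) :=
    ((g_meas e).comp (measurable_fst.const_mul Q)).mul
      ((g_meas e').comp (((measurable_fst.const_mul Q).const_mul _).add
        (measurable_snd.mul_const B)))
  have h4 : |(∫ θ in (0 : ℝ)..1, ∫ α in s..t, g e (Q * θ) * g e' (2 ^ k * (Q * θ) + α * B)) -
      (t - s) / Q| ≤ 2 / |B| := by
    have e1 : (t - s) / Q = ∫ θ in (0 : ℝ)..1, g e (Q * θ) * ((t - s) / e') := by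
      rw [intervalIntegral.integral_mul_const, fast_g he hQ0 e' hQ, hQ]
      field_simp
    have i2 : IntervalIntegrable (fun θ : ℝ => g e (Q * θ) * ((t - s) / e')) volume 0 1 :=
      (ii ((g_meas e).comp (measurable_id.const_mul Q)) 1 (fun x => g_le e he _) 0 1).mul_const _
    rw [e1, ← intervalIntegral.integral_sub
      (inner_ii mP' (fun x y => bP y x) zero_le_one hst) i2, ← Real.norm_eq_abs]
    have h := intervalIntegral.norm_integral_le_of_norm_le_const (a := 0) (b := 1)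
      (C := 2 / |B|) (f := fun θ : ℝ =>
        (∫ α in s..t, g e (Q * θ) * g e' (2 ^ k * (Q * θ) + α * B)) -
          g e (Q * θ) * ((t - s) / e')) ?_
    · simpa using h
    · intro θ _
      rw [intervalIntegral.integral_const_mul, ← mul_sub, Real.norm_eq_abs, abs_mul]
      have h5 := slow he' (2 ^ k * (Q * θ)) B s t hB
      exact (mul_le_of_le_one_left (abs_nonneg _) (g_le e he _)).trans h5
  have h6 : |I - (t - s) / Q| ≤ 2 * (Q / A) + 4 * |η| / e' * (t - s) + 2 / |B| := by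
    rw [abs_le] at h1 h3 h4 ⊢
    constructor
    · linarith [h1.1, h1.2, h3.1, h3.2, h4.1, h4.2]
    · linarith [h1.1, h1.2, h3.1, h3.2, h4.1, h4.2]
  exact h6

theorem meas_eq (A D s t : ℝ) (e e' : ℕ) (hst : s ≤ t) (he : 1 ≤ e) (he' : 1 ≤ e') :
    (volume {α : ℝ | α ∈ Set.Icc s t ∧ (e : ℤ) ∣ ⌊α * A⌋ + 1 ∧ (e' : ℤ) ∣ ⌊α * D⌋ + 1}).toReal =
      ∫ α in s..t, g e (α * A) * g e' (α * D) := by
  set F : ℝ → ℝ := fun α => g e (α * A) * g e' (α * D) with hF
  have mF : Measurable F := ((g_meas e).comp (measurable_id.mul_const A)).mul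
    ((g_meas e').comp (measurable_id.mul_const D))
  set S : Set ℝ := {α : ℝ | (e : ℤ) ∣ ⌊α * A⌋ + 1 ∧ (e' : ℤ) ∣ ⌊α * D⌋ + 1} with hS
  have hFS : ∀ α, F α = S.indicator (1 : ℝ → ℝ) α := by
    intro α
    rw [hF]
    simp only [g_eq e he, g_eq e' he']
    by_cases h1 : (e : ℤ) ∣ ⌊α * A⌋ + 1
    · by_cases h2 : (e' : ℤ) ∣ ⌊α * D⌋ + 1
      · rw [if_pos h1, if_pos h2, Set.indicator_of_mem (show α ∈ S from ⟨h1, h2⟩)]; simp
      · rw [if_neg h2, Set.indicator_of_notMem (fun h : α ∈ S => h2 h.2)]; simp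
    · rw [if_neg h1, Set.indicator_of_notMem (fun h : α ∈ S => h1 h.1)]; simp
  have hSm : MeasurableSet S := by
    have : S = F ⁻¹' {1} := by
      ext α
      rw [Set.mem_preimage, Set.mem_singleton_iff, hFS]
      by_cases h : α ∈ S
      · rw [Set.indicator_of_mem h]; simp [h]
      · rw [Set.indicator_of_notMem h]; simp [h]
    rw [this]
    exact mF (measurableSet_singleton 1)
  have hset : {α : ℝ | α ∈ Set.Icc s t ∧ (e : ℤ) ∣ ⌊α * A⌋ + 1 ∧ (e' : ℤ) ∣ ⌊α * D⌋ + 1} =
      S ∩ Set.Icc s t := by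
    ext α
    constructor
    · rintro ⟨h1, h2⟩; exact ⟨h2, h1⟩
    · rintro ⟨h1, h2⟩; exact ⟨h2, h1⟩
  rw [hset, intervalIntegral.integral_of_le hst, ← integral_Icc_eq_integral_Ioc]
  have h1 : ∫ α in Set.Icc s t, g e (α * A) * g e' (α * D) =
      ∫ α in Set.Icc s t, S.indicator (1 : ℝ → ℝ) α := by
    refine integral_congr_ae (Filter.Eventually.of_forall fun α => ?_)
    exact hFS α
  rw [h1, integral_indicator_one hSm, measureReal_restrict_apply hSm]
  rfl

theorem t_EQ : Pool.Agent.D0H11.GO.S_EQ := by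
  refine ⟨4, by norm_num, fun A B s t k e e' hA hB hBA hst he he' => ?_⟩
  rw [meas_eq A (2 ^ k * A + B) s t e e' hst he he']
  refine (core A B s t k e e' hA hB hst he he').trans ?_
  have he1 : (1 : ℝ) ≤ e := by exact_mod_cast he
  have he1' : (1 : ℝ) ≤ e' := by exact_mod_cast he'
  set Q : ℝ := (e : ℝ) * e' with hQ
  have hQ1 : 1 ≤ Q := by nlinarith
  have hB0 : 0 < |B| := abs_pos.mpr hB
  have hQQ : Q ≤ Q ^ 2 := by nlinarith
  have hQ2 : 1 ≤ Q ^ 2 := by nlinarith
  have hts : 0 ≤ t - s := sub_nonneg.mpr hst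
  have hu : 0 ≤ |B| / A := by positivity
  have hv : 0 ≤ 1 / |B| := by positivity
  have a1 : Q / A ≤ Q ^ 2 * (1 / |B|) := by
    have : Q / A ≤ Q / |B| := div_le_div_of_nonneg_left (by linarith) hB0 hBA
    have h2 : Q / |B| = Q * (1 / |B|) := by ring
    have h3 : Q * (1 / |B|) ≤ Q ^ 2 * (1 / |B|) := mul_le_mul_of_nonneg_right hQQ hv
    linarith
  have a2 : |Q * B / A| / e' ≤ Q ^ 2 * (|B| / A) := by
    have h0 : |Q * B / A| = Q * (|B| / A) := by
      rw [abs_div, abs_mul, abs_of_pos hA, abs_of_pos (by linarith : 0 < Q)]; ring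
    rw [h0]
    have h1 : Q * (|B| / A) / e' ≤ Q * (|B| / A) :=
      div_le_self (mul_nonneg (by linarith) hu) he1'
    exact h1.trans (mul_le_mul_of_nonneg_right hQQ hu)
  have a3 : 4 * |Q * B / A| / e' * (t - s) ≤ 4 * (Q ^ 2 * (|B| / A)) * (t - s) := by
    refine mul_le_mul_of_nonneg_right ?_ hts
    have : 4 * |Q * B / A| / e' = 4 * (|Q * B / A| / e') := by ring
    rw [this]
    linarith
  have a4 : 2 / |B| ≤ 2 * (Q ^ 2 * (1 / |B|)) := by
    have h1 : 2 / |B| = 2 * (1 * (1 / |B|)) := by ring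
    rw [h1]
    have := mul_le_mul_of_nonneg_right hQ2 hv
    linarith
  have b1 : 0 ≤ Q ^ 2 * (t - s) * (1 / |B|) := by positivity
  have b2 : 0 ≤ Q ^ 2 * (|B| / A) := by positivity
  calc 2 * (Q / A) + 4 * |Q * B / A| / e' * (t - s) + 2 / |B| ≤
        2 * (Q ^ 2 * (1 / |B|)) + 4 * (Q ^ 2 * (|B| / A)) * (t - s) +
          2 * (Q ^ 2 * (1 / |B|)) := by linarith
    _ ≤ 4 * Q ^ 2 * (t - s + 1) * (|B| / A + 1 / |B|) := by
        have : 4 * Q ^ 2 * (t - s + 1) * (|B| / A + 1 / |B|) =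
          2 * (Q ^ 2 * (1 / |B|)) + 4 * (Q ^ 2 * (|B| / A)) * (t - s) +
          2 * (Q ^ 2 * (1 / |B|)) + 4 * (Q ^ 2 * (t - s) * (1 / |B|)) +
          4 * (Q ^ 2 * (|B| / A)) := by ring
        linarith

end Pool.Agent.D0H81.GO
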